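import Pool.Agent.Helper69.PC.Main

/-!
# The averaged pair correlation conjecture: lower bounds and repulsion of the zeros

Assume the Riemann hypothesis. Let `F(α, T)` be the function of Montgomery, `N(T)` the number of
the zeros with ordinates in `(0, T]`, and `Pairs ε T` the number of the ordered pairs of different
zeros (multiple zeros are repeated) whose distance is at most `ε` times the mean spacing
`2π / log T`. Let `T → ∞` (or let `T` run along any finer filter).

1. `∫_b^c F(α, T) dα → ∫_b^c min(α, 1) dα` for all `0 < b < c` if and only if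
   * (lower half) `liminf ∫_b^c F(α, T) dα ≥ ∫_b^c min(α, 1) dα` for all `0 < b < c`, and
   * (repulsion) for every `κ > 0` and all `0 < ε < ε₀(κ)`: `Pairs ε T ≤ κ ε N(T)` for large `T`.
2. The same for `∫_b^c |F(α, T) - min(α, 1)| dα → 0` and
   `∫_b^c max (min(α, 1) - F(α, T)) 0 dα → 0`.
3. The balance: if the lower bounds hold up to `η` and if `Pairs ε T ≤ κ' ε N(T)` for all
   `κ' > κ`, small `ε` and large `T`, then
   `limsup ∫_b^c F(α, T) dα ≤ ∫_b^c min(α, 1) dα + 2 η + κ / 4` for all `0 < b < c`.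

The proof: the Laplace transform `∫_0^∞ e^(-sα) F(α, T) dα` is the sum over the pairs of zeros with
the Poisson kernel `s / (s² + z²)`, `z = (γ - γ') log T`, which is positive and decreasing, so the
pairs of different zeros contribute at most `κ / 4 + o(1)` as `s → 0`, while an excess `δ` of the
integral of `F` contributes `δ`. In the other direction the Fejér kernel is used.
-/

open Complex MeasureTheory Filter Topology

namespace Pool.Agent.Results.MP_00e05b_nt.LowerHalfAndRepulsion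

/-- the nontrivial zeros of `ζ` with ordinate in `(0, T]` -/
def zeros (T : ℝ) : Set ℂ :=
  {s : ℂ | 0 < s.re ∧ s.re < 1 ∧ 0 < s.im ∧ s.im ≤ T ∧ riemannZeta s = 0}

/-- the multiplicity of `s` as a zero of `ζ` -/
noncomputable def mult (s : ℂ) : ℕ := analyticOrderNatAt riemannZeta s

/-- Montgomery's function
`F(α, T) = (T/2π log T)⁻¹ ∑_{γ, γ'} T^(iα(γ-γ')) w(γ-γ')`, `w(u) = 4/(4+u²)`,
zeros with multiplicity -/
noncomputable def F (α T : ℝ) : ℂ :=
  ((T / (2 * Real.pi) * Real.log T : ℝ) : ℂ)⁻¹ *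
    ∑ᶠ s ∈ zeros T, ∑ᶠ s' ∈ zeros T, (mult s : ℂ) * (mult s' : ℂ) *
      ((T : ℂ) ^ (I * α * (s.im - s'.im)) * (4 / (4 + (s.im - s'.im : ℂ) ^ 2)))

/-- the number of the zeros with ordinate in `(0, T]`, with multiplicity -/
noncomputable def N (T : ℝ) : ℝ := ∑ᶠ s ∈ zeros T, (mult s : ℝ)

open Classical in
/-- the number of the ordered pairs of different zeros (counted as indices, so that a zero of
multiplicity `m` contributes `m² - m` pairs of distance `0`) with ordinates in `(0, T]` whose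
distance is at most `ε` times `2π / log T` -/
noncomputable def Pairs (ε T : ℝ) : ℝ :=
  (∑ᶠ s ∈ zeros T, ∑ᶠ s' ∈ zeros T,
    if |s.im - s'.im| ≤ 2 * Real.pi * ε / Real.log T then (mult s : ℝ) * (mult s' : ℝ) else 0) - N T

/-- `liminf ∫_b^c F ≥ ∫_b^c min(α, 1) - η` for all `0 < b < c` -/
def Lower (l : Filter ℝ) (η : ℝ) : Prop :=
  ∀ b c : ℝ, 0 < b → b < c → ∀ ε : ℝ, 0 < ε →
    ∀ᶠ T in l, (∫ α in b..c, min α 1) - η - ε ≤ ∫ α in b..c, (F α T).re

/-- `limsup ∫_b^c F ≤ ∫_b^c min(α, 1) + η` for all `0 < b < c` -/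
def Upper (l : Filter ℝ) (η : ℝ) : Prop :=
  ∀ b c : ℝ, 0 < b → b < c → ∀ ε : ℝ, 0 < ε →
    ∀ᶠ T in l, ∫ α in b..c, (F α T).re ≤ (∫ α in b..c, min α 1) + η + ε

/-- there are at most `(κ + o(1)) ε N(T)` pairs of different zeros within `ε` mean spacings, as
`T → ∞` and then `ε → 0` -/
def ClosePairs (l : Filter ℝ) (κ : ℝ) : Prop :=
  ∀ κ' : ℝ, κ < κ' → ∃ ε₀ : ℝ, 0 < ε₀ ∧ ∀ ε : ℝ, 0 < ε → ε < ε₀ →
    ∀ᶠ T in l, Pairs ε T ≤ κ' * ε * N T

lemma zeros_finite (T : ℝ) : (zeros T).Finite := H370.zeta_zeros_finite T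

lemma F_eq (hRH : RiemannHypothesis) (α T : ℝ) (hT : 1 < T) :
    F α T = ((H332B.Wp T (α * Real.log T) / H332B.X T : ℝ) : ℂ) := by
  have hT0 : (0 : ℝ) < T := by linarith
  have hTc : (T : ℂ) ≠ 0 := by exact_mod_cast hT0.ne'
  -- the sum
  set S : ℂ := ∑ s ∈ H343.ZSide.Z0 T, ∑ s' ∈ H343.ZSide.Z0 T, (mult s : ℂ) * (mult s' : ℂ) *
      ((T : ℂ) ^ (I * α * (s.im - s'.im)) * (4 / (4 + (s.im - s'.im : ℂ) ^ 2))) with hS
  have hF : F α T = ((T / (2 * Real.pi) * Real.log T : ℝ) : ℂ)⁻¹ * S := by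
    unfold F
    congr 1
    rw [finsum_mem_eq_finite_toFinset_sum _ (zeros_finite T)]
    apply Finset.sum_congr rfl
    intro s _
    rw [finsum_mem_eq_finite_toFinset_sum _ (zeros_finite T)]
    rfl
  have hterm : ∀ s s' : ℂ, (mult s : ℂ) * (mult s' : ℂ) *
      ((T : ℂ) ^ (I * α * (s.im - s'.im)) * (4 / (4 + (s.im - s'.im : ℂ) ^ 2))) =
      ((H343.ZSide.mz s * H343.ZSide.mz s' * (4 / (4 + (s.im - s'.im) ^ 2)) : ℝ) : ℂ) *
        cexp (((α * Real.log T * (s.im - s'.im) : ℝ) : ℂ) * I) := by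
    intro s s'
    rw [Complex.cpow_def_of_ne_zero hTc, ← Complex.ofReal_log hT0.le]
    unfold H343.ZSide.mz mult H370.mult
    push_cast
    rw [show (Real.log T : ℂ) * (I * α * (s.im - s'.im)) =
      α * Real.log T * (s.im - s'.im) * I by ring]
    ring
  have hre : S.re = H332B.Wp T (α * Real.log T) := by
    rw [H332B.wpc hRH]
    unfold H332B.K2
    rw [hS, Complex.re_sum]
    apply Finset.sum_congr rfl
    intro s _
    rw [Complex.re_sum]
    apply Finset.sum_congr rfl
    intro s' _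
    rw [hterm, Complex.re_ofReal_mul, Complex.exp_ofReal_mul_I_re]
    ring
  have him : S.im = 0 := by
    have h1 : S.im = ∑ s ∈ H343.ZSide.Z0 T, ∑ s' ∈ H343.ZSide.Z0 T,
        H343.ZSide.mz s * H343.ZSide.mz s' * (4 / (4 + (s.im - s'.im) ^ 2)) *
          Real.sin (α * Real.log T * (s.im - s'.im)) := by
      rw [hS, Complex.im_sum]
      apply Finset.sum_congr rfl
      intro s _
      rw [Complex.im_sum]
      apply Finset.sum_congr rfl
      intro s' _
      rw [hterm, Complex.im_ofReal_mul, Complex.exp_ofReal_mul_I_im]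
    have h2 : S.im = -S.im := by
      conv_lhs => rw [h1, Finset.sum_comm]
      rw [h1, ← Finset.sum_neg_distrib]
      apply Finset.sum_congr rfl
      intro s _
      rw [← Finset.sum_neg_distrib]
      apply Finset.sum_congr rfl
      intro s' _
      rw [show α * Real.log T * (s'.im - s.im) = -(α * Real.log T * (s.im - s'.im)) by ring,
        Real.sin_neg, show (s'.im - s.im) ^ 2 = (s.im - s'.im) ^ 2 by ring]
      ring
    linarith
  have hSr : S = ((H332B.Wp T (α * Real.log T) : ℝ) : ℂ) := by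
    apply Complex.ext
    · rw [hre, Complex.ofReal_re]
    · rw [him, Complex.ofReal_im]
  rw [hF, hSr, ← Complex.ofReal_inv, ← Complex.ofReal_mul]
  congr 1
  unfold H332B.X
  have hlog : 0 < Real.log T := Real.log_pos hT
  have := Real.pi_pos
  field_simp

lemma re_eq (hRH : RiemannHypothesis) {T : ℝ} (hT : 1 < T) (α : ℝ) :
    (F α T).re = H332B.Wp T (α * Real.log T) / H332B.X T := by
  rw [F_eq hRH α T hT, Complex.ofReal_re]

open Pool.Agent.Helper84.OS in
lemma int_eq (hRH : RiemannHypothesis) {T : ℝ} (hT : 1 < T) (b c : ℝ) :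
    ∫ α in b..c, (F α T).re = cum T c - cum T b := by
  simp_rw [re_eq hRH hT]
  rw [cum_sub hRH, intervalIntegral.integral_div]

lemma re_cont (hRH : RiemannHypothesis) {T : ℝ} (hT : 1 < T) : Continuous fun α => (F α T).re := by
  simp_rw [re_eq hRH hT]
  exact (Pool.Agent.Helper84.OS.Wc hRH T).div_const _

lemma N_eq (T : ℝ) : N T = Pool.Agent.Helper69.PC.NZ T := by
  rw [← Pool.Agent.Helper69.PC.NZ_sum]
  unfold N
  rw [finsum_mem_eq_finite_toFinset_sum _ (zeros_finite T)]
  rfl

lemma Pairs_eq {T : ℝ} (hT : 1 < T) {ε : ℝ} (hε : 0 < ε) : Pairs ε T =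
    Pool.Agent.Helper69.PC.E T (Pool.Agent.Helper69.PC.ind T (2 * Real.pi * ε)) := by
  classical
  have hL : 0 < Real.log T := Real.log_pos hT
  have hpi := Real.pi_pos
  have h0 : Pool.Agent.Helper69.PC.ind T (2 * Real.pi * ε) 0 = 1 := by
    unfold Pool.Agent.Helper69.PC.ind
    rw [if_pos (by
      rw [mul_zero, abs_zero]
      positivity)]
  unfold Pairs Pool.Agent.Helper69.PC.E
  rw [h0, mul_one, N_eq]
  congr 1
  rw [finsum_mem_eq_finite_toFinset_sum _ (zeros_finite T)]
  unfold H332B.K2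
  apply Finset.sum_congr rfl
  intro s _
  rw [finsum_mem_eq_finite_toFinset_sum _ (zeros_finite T)]
  apply Finset.sum_congr rfl
  intro s' _
  unfold Pool.Agent.Helper69.PC.ind
  have h4 : |Real.log T * (s.im - s'.im)| ≤ 2 * Real.pi * ε ↔
      |s.im - s'.im| ≤ 2 * Real.pi * ε / Real.log T := by
    rw [abs_mul, abs_of_pos hL, le_div_iff₀ hL, mul_comm]
  by_cases h : |s.im - s'.im| ≤ 2 * Real.pi * ε / Real.log T
  · rw [if_pos h, if_pos (h4.2 h), mul_one]
    rfl
  · rw [if_neg h, if_neg (fun h' => h (h4.1 h')), mul_zero]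

lemma ClosePairs_iff {l : Filter ℝ} (hl : l ≤ atTop) (κ : ℝ) :
    ClosePairs l κ ↔ Pool.Agent.Helper69.PC.Rep l κ := by
  have hl1 : ∀ᶠ T in l, (1 : ℝ) < T := (eventually_gt_atTop (1 : ℝ)).filter_mono hl
  constructor
  · intro h κ' hκ'
    obtain ⟨ε₀, hε₀, h1⟩ := h κ' hκ'
    refine ⟨ε₀, hε₀, fun ε hε hε' => ?_⟩
    filter_upwards [h1 ε hε hε', hl1] with T hT hT1
    rwa [Pairs_eq hT1 hε, N_eq] at hT
  · intro h κ' hκ'
    obtain ⟨ε₀, hε₀, h1⟩ := h κ' hκ'
    refine ⟨ε₀, hε₀, fun ε hε hε' => ?_⟩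
    filter_upwards [h1 ε hε hε', hl1] with T hT hT1
    rwa [Pairs_eq hT1 hε, N_eq]

lemma Lower_LH (hRH : RiemannHypothesis) {l : Filter ℝ} (hl : l ≤ atTop) {η : ℝ}
    (h : Lower l η) : Pool.Agent.Helper69.PC.LH l η := by
  have hl1 : ∀ᶠ T in l, (1 : ℝ) < T := (eventually_gt_atTop (1 : ℝ)).filter_mono hl
  intro b c hb hbc ε hε
  filter_upwards [h b c hb hbc ε hε, hl1] with T hT hT1
  rwa [int_eq hRH hT1, Pool.Agent.Helper84.OS.mm_sub] at hT

/-- part 3 -/
lemma balance (hRH : RiemannHypothesis) {l : Filter ℝ} (hl : l ≤ atTop) {η κ : ℝ} (hη : 0 ≤ η)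
    (hκ : 0 ≤ κ) (h1 : Lower l η) (h2 : ClosePairs l κ) : Upper l (2 * η + κ / 4) := by
  have hl1 : ∀ᶠ T in l, (1 : ℝ) < T := (eventually_gt_atTop (1 : ℝ)).filter_mono hl
  intro b c hb hbc ε hε
  filter_upwards [Pool.Agent.Helper69.PC.upper hRH hl hκ hη (Lower_LH hRH hl h1)
    ((ClosePairs_iff hl κ).1 h2) hb hbc hε, hl1] with T hT hT1
  rw [int_eq hRH hT1, Pool.Agent.Helper84.OS.mm_sub]
  linarith

lemma rep_of (hRH : RiemannHypothesis) {l : Filter ℝ} (hl : l ≤ atTop)
    (h : ∀ b c : ℝ, 0 < b → b < c →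
        Tendsto (fun T => ∫ α in b..c, (F α T).re) l (𝓝 (∫ α in b..c, min α 1))) :
    ClosePairs l 0 := by
  have hl1 : ∀ᶠ T in l, (1 : ℝ) < T := (eventually_gt_atTop (1 : ℝ)).filter_mono hl
  rw [ClosePairs_iff hl]
  refine Pool.Agent.Helper69.PC.rep_of_upper hRH hl fun A b c hb hbc _ ε hε => ?_
  filter_upwards [(Metric.tendsto_nhds.1 (h b c hb hbc)) ε hε, hl1] with T hT hT1
  rw [Real.dist_eq, abs_lt, int_eq hRH hT1, Pool.Agent.Helper84.OS.mm_sub] at hT
  linarith [hT.2]

lemma full (hRH : RiemannHypothesis) {l : Filter ℝ} (hl : l ≤ atTop) :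
    (∀ b c : ℝ, 0 < b → b < c →
        Tendsto (fun T => ∫ α in b..c, (F α T).re) l (𝓝 (∫ α in b..c, min α 1))) ↔
      Lower l 0 ∧ ClosePairs l 0 := by
  refine ⟨fun h => ⟨fun b c hb hbc ε hε => ?_, rep_of hRH hl h⟩, fun ⟨h1, h2⟩ b c hb hbc => ?_⟩
  · filter_upwards [(Metric.tendsto_nhds.1 (h b c hb hbc)) ε hε] with T hT
    rw [Real.dist_eq, abs_lt] at hT
    linarith [hT.1]
  · have h3 := balance hRH hl le_rfl le_rfl h1 h2
    rw [Metric.tendsto_nhds]
    intro ε hε
    filter_upwards [h1 b c hb hbc (ε / 2) (by positivity), h3 b c hb hbc (ε / 2) (by positivity)]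
      with T h4 h5
    rw [Real.dist_eq, abs_lt]
    constructor <;> linarith

/-- **The averaged pair correlation conjecture is equivalent to its lower half and the repulsion
of the zeros.** -/
theorem result (hRH : RiemannHypothesis) (l : Filter ℝ) (hl : l ≤ atTop) :
    ((∀ b c : ℝ, 0 < b → b < c →
        Tendsto (fun T => ∫ α in b..c, (F α T).re) l (𝓝 (∫ α in b..c, min α 1))) ↔
      Lower l 0 ∧ ClosePairs l 0) ∧
    ((∀ b c : ℝ, 0 < b → b < c →
        Tendsto (fun T => ∫ α in b..c, |(F α T).re - min α 1|) l (𝓝 0)) ↔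
      (∀ b c : ℝ, 0 < b → b < c →
        Tendsto (fun T => ∫ α in b..c, max (min α 1 - (F α T).re) 0) l (𝓝 0)) ∧
      ClosePairs l 0) ∧
    (∀ η κ : ℝ, 0 ≤ η → 0 ≤ κ → Lower l η → ClosePairs l κ → Upper l (2 * η + κ / 4)) := by
  have hl1 : ∀ᶠ T in l, (1 : ℝ) < T := (eventually_gt_atTop (1 : ℝ)).filter_mono hl
  have mi : ∀ b c : ℝ, IntervalIntegrable (fun α : ℝ => min α 1) volume b c := fun b c =>
    (by fun_prop : Continuous fun α : ℝ => min α 1).intervalIntegrable _ _
  refine ⟨full hRH hl, ⟨fun h => ⟨fun b c hb hbc => ?_, ?_⟩, fun ⟨h1, h2⟩ b c hb hbc => ?_⟩,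
    fun η κ hη hκ h1 h2 => balance hRH hl hη hκ h1 h2⟩
  · refine squeeze_zero' ?_ ?_ (h b c hb hbc)
    · exact Eventually.of_forall fun T =>
        intervalIntegral.integral_nonneg hbc.le fun α _ => le_max_right _ _
    · filter_upwards [hl1] with T hT
      have hc := re_cont hRH hT
      refine intervalIntegral.integral_mono_on hbc.le ?_ ?_ fun α _ => ?_
      · exact (by fun_prop : Continuous fun α => max (min α 1 - (F α T).re) 0).intervalIntegrable _ _
      · exact (by fun_prop : Continuous fun α => |(F α T).re - min α 1|).intervalIntegrable _ _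
      · rw [abs_sub_comm]
        exact max_le (le_abs_self _) (abs_nonneg _)
  · refine rep_of hRH hl fun b c hb hbc => ?_
    have h1 := h b c hb hbc
    have h2 : Tendsto (fun T => (∫ α in b..c, (F α T).re) - ∫ α in b..c, min α 1) l (𝓝 0) := by
      refine squeeze_zero_norm' ?_ h1
      filter_upwards [hl1] with T hT
      have hc := re_cont hRH hT
      rw [← intervalIntegral.integral_sub (hc.intervalIntegrable _ _) (mi b c)]
      exact intervalIntegral.norm_integral_le_integral_norm hbc.le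
    have h3 := h2.add_const (∫ α in b..c, min α 1)
    simpa using h3
  · have low : Lower l 0 := by
      intro b c hb hbc ε hε
      filter_upwards [(Metric.tendsto_nhds.1 (h1 b c hb hbc)) ε hε, hl1] with T hT hT1
      rw [Real.dist_eq, sub_zero] at hT
      have hT' := (le_abs_self _).trans hT.le
      have hc := re_cont hRH hT1
      have h2 : ∫ α in b..c, min α 1 ≤
          ∫ α in b..c, ((F α T).re + max (min α 1 - (F α T).re) 0) := by
        refine intervalIntegral.integral_mono_on hbc.le (mi b c) ?_ fun α _ => ?_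
        · exact (by fun_prop : Continuous fun α => (F α T).re +
            max (min α 1 - (F α T).re) 0).intervalIntegrable _ _
        · have := le_max_left (min α 1 - (F α T).re) 0
          linarith
      rw [intervalIntegral.integral_add (hc.intervalIntegrable _ _)
        ((by fun_prop : Continuous fun α => max (min α 1 - (F α T).re) 0).intervalIntegrable _ _)]
        at h2
      linarith
    have h3 := ((full hRH hl).2 ⟨low, h2⟩ b c hb hbc).sub_const (∫ α in b..c, min α 1)
    rw [sub_self] at h3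
    have h4 := ((h1 b c hb hbc).const_mul 2).add h3
    rw [mul_zero, zero_add] at h4
    refine h4.congr' ?_
    filter_upwards [hl1] with T hT
    have hc := re_cont hRH hT
    have e1 : ∀ α : ℝ, |(F α T).re - min α 1| =
        2 * max (min α 1 - (F α T).re) 0 + ((F α T).re - min α 1) := by
      intro α
      rcases le_total (min α 1) ((F α T).re) with h5 | h5
      · rw [max_eq_right (by linarith), abs_of_nonneg (by linarith)]
        ring
      · rw [max_eq_left (by linarith), abs_of_nonpos (by linarith)]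
        ring
    simp_rw [e1]
    rw [intervalIntegral.integral_add, intervalIntegral.integral_const_mul,
      intervalIntegral.integral_sub (hc.intervalIntegrable _ _) (mi b c)]
    · exact (by fun_prop : Continuous fun α =>
        2 * max (min α 1 - (F α T).re) 0).intervalIntegrable _ _
    · exact (by fun_prop : Continuous fun α => (F α T).re - min α 1).intervalIntegrable _ _

end Pool.Agent.Results.MP_00e05b_nt.LowerHalfAndRepulsion
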