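import Pool.Agent.Helper69.PC.Mean4

/-!
# Long mean values of Montgomery's function and clusters of zeros

Assume the Riemann hypothesis. Let `F(α, T)` be the function of Montgomery, `N(T)` the number of
the zeros with ordinates in `(0, T]`, and `Pairs ε T` the number of the ordered pairs of different
zeros (multiple zeros are repeated) whose distance is at most `ε` times the mean spacing
`2π / log T`. Let `T → ∞` (or let `T` run along any finer filter). Let `p ≥ 0`.

1. The following are equivalent: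
   * at most `(p + o(1)) N(T)` pairs are within `ε` mean spacings, as `T → ∞` and then `ε → 0`;
   * `∫_0^A F(α, T) dα ≤ (1 + p + o(1)) A`, as `T → ∞` and then `A → ∞`;
   * `|∫_b^(b+A) F(α, T) dα - A| ≤ (p + o(1)) A`, as `T → ∞` and then `A → ∞`, uniformly in the
     position `b` of the window.
2. `∫_0^A F(α, T) dα / A` tends to `1 + p` if and only if the number of the close pairs divided by
   `N(T)` tends to `p`.
3. If `liminf ∫_b^c F ≥ ∫_b^c min(α, 1)` for all `0 < b < c`, then the zeros do not cluster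
   (`p = 0` in 1) if and only if `F` has mean value `1 + o(1)` on almost all unit windows.

For `p = 0`: the conjecture `F → 1` holds in mean over all long windows, uniformly in their
position, if and only if the zeros do not cluster.

The proof: the Fejér means of `F` around a point `b` differ from one by at most the pair sum of the
Fejér kernel over the pairs of different zeros, whatever `b` is; this pair sum is controlled by the
close pairs and in turn controls them.
-/

open Complex MeasureTheory Filter Topology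

namespace Pool.Agent.Results.MP_00e05b_nt.MeanValueAndClusters

/-- the nontrivial zeros of `ζ` with ordinate in `(0, T]` -/
def zeros (T : ℝ) : Set ℂ :=
  {s : ℂ | 0 < s.re ∧ s.re < 1 ∧ 0 < s.im ∧ s.im ≤ T ∧ riemannZeta s = 0}

/-- the multiplicity of `s` as a zero of `ζ` -/
noncomputable def mult (s : ℂ) : ℕ := analyticOrderNatAt riemannZeta s

/-- Montgomery's function
`F(α, T) = (T/2π log T)⁻¹ ∑_{γ, γ'} T^(iα(γ-γ')) w(γ-γ')`, `w(u) = 4/(4+u²)`,
zeros with multiplicity -/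
noncomputable def F (α T : ℝ) : ℂ :=
  ((T / (2 * Real.pi) * Real.log T : ℝ) : ℂ)⁻¹ *
    ∑ᶠ s ∈ zeros T, ∑ᶠ s' ∈ zeros T, (mult s : ℂ) * (mult s' : ℂ) *
      ((T : ℂ) ^ (I * α * (s.im - s'.im)) * (4 / (4 + (s.im - s'.im : ℂ) ^ 2)))

/-- the number of the zeros with ordinate in `(0, T]`, with multiplicity -/
noncomputable def N (T : ℝ) : ℝ := ∑ᶠ s ∈ zeros T, (mult s : ℝ)

open Classical in
/-- the number of the ordered pairs of different zeros (counted as indices, so that a zero of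
multiplicity `m` contributes `m² - m` pairs of distance `0`) with ordinates in `(0, T]` whose
distance is at most `ε` times `2π / log T` -/
noncomputable def Pairs (ε T : ℝ) : ℝ :=
  (∑ᶠ s ∈ zeros T, ∑ᶠ s' ∈ zeros T,
    if |s.im - s'.im| ≤ 2 * Real.pi * ε / Real.log T then (mult s : ℝ) * (mult s' : ℝ) else 0) - N T

/-- `liminf ∫_b^c F ≥ ∫_b^c min(α, 1) - η` for all `0 < b < c` -/
def Lower (l : Filter ℝ) (η : ℝ) : Prop :=
  ∀ b c : ℝ, 0 < b → b < c → ∀ ε : ℝ, 0 < ε →
    ∀ᶠ T in l, (∫ α in b..c, min α 1) - η - ε ≤ ∫ α in b..c, (F α T).re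

/-- there are at most `(p + o(1)) N(T)` ordered pairs of different zeros within `ε` mean spacings,
as `T → ∞` and then `ε → 0` -/
def ClustersAtMost (l : Filter ℝ) (p : ℝ) : Prop :=
  ∀ δ : ℝ, 0 < δ → ∃ ε₀ : ℝ, 0 < ε₀ ∧ ∀ ε : ℝ, 0 < ε → ε < ε₀ →
    ∀ᶠ T in l, Pairs ε T ≤ (p + δ) * N T

/-- there are at least `(p - o(1)) N(T)` ordered pairs of different zeros within `ε` mean spacings,
as `T → ∞`, for every `ε > 0` -/
def ClustersAtLeast (l : Filter ℝ) (p : ℝ) : Prop :=
  ∀ δ : ℝ, 0 < δ → ∀ ε : ℝ, 0 < ε → ∀ᶠ T in l, (p - δ) * N T ≤ Pairs ε T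

/-- `∫_0^A F ≤ (m + o(1)) A`, as `T → ∞` and then `A → ∞` -/
def MeanAtMost (l : Filter ℝ) (m : ℝ) : Prop :=
  ∀ δ : ℝ, 0 < δ → ∃ A₀ : ℝ, 0 < A₀ ∧ ∀ A : ℝ, A₀ ≤ A →
    ∀ᶠ T in l, ∫ α in (0 : ℝ)..A, (F α T).re ≤ (m + δ) * A

/-- `∫_0^A F ≥ (m - o(1)) A`, as `T → ∞` and then `A → ∞` -/
def MeanAtLeast (l : Filter ℝ) (m : ℝ) : Prop :=
  ∀ δ : ℝ, 0 < δ → ∃ A₀ : ℝ, 0 < A₀ ∧ ∀ A : ℝ, A₀ ≤ A →
    ∀ᶠ T in l, (m - δ) * A ≤ ∫ α in (0 : ℝ)..A, (F α T).re

/-- `|∫_b^(b+A) F - A| ≤ (p + o(1)) A`, as `T → ∞` and then `A → ∞`, uniformly in `b` -/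
def AllWindows (l : Filter ℝ) (p : ℝ) : Prop :=
  ∀ δ : ℝ, 0 < δ → ∃ A₀ : ℝ, 0 < A₀ ∧ ∀ A : ℝ, A₀ ≤ A →
    ∀ᶠ T in l, ∀ b : ℝ, |(∫ α in b..(b + A), (F α T).re) - A| ≤ (p + δ) * A

/-- the mean value of `F` is `1 + o(1)` on almost all windows `[k, k + 1]`, `k = 1, 2, ...` -/
def AlmostAllUnitWindows (l : Filter ℝ) : Prop :=
  ∀ δ : ℝ, 0 < δ → ∃ n₀ : ℕ, ∀ n : ℕ, n₀ ≤ n → ∀ᶠ T in l,
    ∑ k ∈ Finset.range n, |(∫ α in (k + 1 : ℝ)..(k + 2), (F α T).re) - 1| ≤ δ * n

lemma zeros_finite (T : ℝ) : (zeros T).Finite := H370.zeta_zeros_finite T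

lemma F_eq (hRH : RiemannHypothesis) (α T : ℝ) (hT : 1 < T) :
    F α T = ((H332B.Wp T (α * Real.log T) / H332B.X T : ℝ) : ℂ) := by
  have hT0 : (0 : ℝ) < T := by linarith
  have hTc : (T : ℂ) ≠ 0 := by exact_mod_cast hT0.ne'
  -- the sum
  set S : ℂ := ∑ s ∈ H343.ZSide.Z0 T, ∑ s' ∈ H343.ZSide.Z0 T, (mult s : ℂ) * (mult s' : ℂ) *
      ((T : ℂ) ^ (I * α * (s.im - s'.im)) * (4 / (4 + (s.im - s'.im : ℂ) ^ 2))) with hS
  have hF : F α T = ((T / (2 * Real.pi) * Real.log T : ℝ) : ℂ)⁻¹ * S := by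
    unfold F
    congr 1
    rw [finsum_mem_eq_finite_toFinset_sum _ (zeros_finite T)]
    apply Finset.sum_congr rfl
    intro s _
    rw [finsum_mem_eq_finite_toFinset_sum _ (zeros_finite T)]
    rfl
  have hterm : ∀ s s' : ℂ, (mult s : ℂ) * (mult s' : ℂ) *
      ((T : ℂ) ^ (I * α * (s.im - s'.im)) * (4 / (4 + (s.im - s'.im : ℂ) ^ 2))) =
      ((H343.ZSide.mz s * H343.ZSide.mz s' * (4 / (4 + (s.im - s'.im) ^ 2)) : ℝ) : ℂ) *
        cexp (((α * Real.log T * (s.im - s'.im) : ℝ) : ℂ) * I) := by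
    intro s s'
    rw [Complex.cpow_def_of_ne_zero hTc, ← Complex.ofReal_log hT0.le]
    unfold H343.ZSide.mz mult H370.mult
    push_cast
    rw [show (Real.log T : ℂ) * (I * α * (s.im - s'.im)) =
      α * Real.log T * (s.im - s'.im) * I by ring]
    ring
  have hre : S.re = H332B.Wp T (α * Real.log T) := by
    rw [H332B.wpc hRH]
    unfold H332B.K2
    rw [hS, Complex.re_sum]
    apply Finset.sum_congr rfl
    intro s _
    rw [Complex.re_sum]
    apply Finset.sum_congr rfl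
    intro s' _
    rw [hterm, Complex.re_ofReal_mul, Complex.exp_ofReal_mul_I_re]
    ring
  have him : S.im = 0 := by
    have h1 : S.im = ∑ s ∈ H343.ZSide.Z0 T, ∑ s' ∈ H343.ZSide.Z0 T,
        H343.ZSide.mz s * H343.ZSide.mz s' * (4 / (4 + (s.im - s'.im) ^ 2)) *
          Real.sin (α * Real.log T * (s.im - s'.im)) := by
      rw [hS, Complex.im_sum]
      apply Finset.sum_congr rfl
      intro s _
      rw [Complex.im_sum]
      apply Finset.sum_congr rfl
      intro s' _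
      rw [hterm, Complex.im_ofReal_mul, Complex.exp_ofReal_mul_I_im]
    have h2 : S.im = -S.im := by
      conv_lhs => rw [h1, Finset.sum_comm]
      rw [h1, ← Finset.sum_neg_distrib]
      apply Finset.sum_congr rfl
      intro s _
      rw [← Finset.sum_neg_distrib]
      apply Finset.sum_congr rfl
      intro s' _
      rw [show α * Real.log T * (s'.im - s.im) = -(α * Real.log T * (s.im - s'.im)) by ring,
        Real.sin_neg, show (s'.im - s.im) ^ 2 = (s.im - s'.im) ^ 2 by ring]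
      ring
    linarith
  have hSr : S = ((H332B.Wp T (α * Real.log T) : ℝ) : ℂ) := by
    apply Complex.ext
    · rw [hre, Complex.ofReal_re]
    · rw [him, Complex.ofReal_im]
  rw [hF, hSr, ← Complex.ofReal_inv, ← Complex.ofReal_mul]
  congr 1
  unfold H332B.X
  have hlog : 0 < Real.log T := Real.log_pos hT
  have := Real.pi_pos
  field_simp

lemma re_eq (hRH : RiemannHypothesis) {T : ℝ} (hT : 1 < T) (α : ℝ) :
    (F α T).re = H332B.Wp T (α * Real.log T) / H332B.X T := by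
  rw [F_eq hRH α T hT, Complex.ofReal_re]

open Pool.Agent.Helper84.OS in
lemma int_eq (hRH : RiemannHypothesis) {T : ℝ} (hT : 1 < T) (b c : ℝ) :
    ∫ α in b..c, (F α T).re = cum T c - cum T b := by
  simp_rw [re_eq hRH hT]
  rw [cum_sub hRH, intervalIntegral.integral_div]

lemma N_eq (T : ℝ) : N T = Pool.Agent.Helper69.PC.NZ T := by
  rw [← Pool.Agent.Helper69.PC.NZ_sum]
  unfold N
  rw [finsum_mem_eq_finite_toFinset_sum _ (zeros_finite T)]
  rfl

lemma Pairs_eq {T : ℝ} (hT : 1 < T) {ε : ℝ} (hε : 0 < ε) : Pairs ε T =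
    Pool.Agent.Helper69.PC.E T (Pool.Agent.Helper69.PC.ind T (2 * Real.pi * ε)) := by
  classical
  have hL : 0 < Real.log T := Real.log_pos hT
  have hpi := Real.pi_pos
  have h0 : Pool.Agent.Helper69.PC.ind T (2 * Real.pi * ε) 0 = 1 := by
    unfold Pool.Agent.Helper69.PC.ind
    rw [if_pos (by
      rw [mul_zero, abs_zero]
      positivity)]
  unfold Pairs Pool.Agent.Helper69.PC.E
  rw [h0, mul_one, N_eq]
  congr 1
  rw [finsum_mem_eq_finite_toFinset_sum _ (zeros_finite T)]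
  unfold H332B.K2
  apply Finset.sum_congr rfl
  intro s _
  rw [finsum_mem_eq_finite_toFinset_sum _ (zeros_finite T)]
  apply Finset.sum_congr rfl
  intro s' _
  unfold Pool.Agent.Helper69.PC.ind
  have h4 : |Real.log T * (s.im - s'.im)| ≤ 2 * Real.pi * ε ↔
      |s.im - s'.im| ≤ 2 * Real.pi * ε / Real.log T := by
    rw [abs_mul, abs_of_pos hL, le_div_iff₀ hL, mul_comm]
  by_cases h : |s.im - s'.im| ≤ 2 * Real.pi * ε / Real.log T
  · rw [if_pos h, if_pos (h4.2 h), mul_one]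
    rfl
  · rw [if_neg h, if_neg (fun h' => h (h4.1 h')), mul_zero]

lemma Lower_LH (hRH : RiemannHypothesis) {l : Filter ℝ} (hl : l ≤ atTop) {η : ℝ}
    (h : Lower l η) : Pool.Agent.Helper69.PC.LH l η := by
  have hl1 : ∀ᶠ T in l, (1 : ℝ) < T := (eventually_gt_atTop (1 : ℝ)).filter_mono hl
  intro b c hb hbc ε hε
  filter_upwards [h b c hb hbc ε hε, hl1] with T hT hT1
  rwa [int_eq hRH hT1, Pool.Agent.Helper84.OS.mm_sub] at hT

section

open Pool.Agent.Helper69.PC

variable {l : Filter ℝ}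

lemma l1 (hl : l ≤ atTop) : ∀ᶠ T in l, (1 : ℝ) < T :=
  (eventually_gt_atTop (1 : ℝ)).filter_mono hl

lemma most_iff (hl : l ≤ atTop) (p : ℝ) : ClustersAtMost l p ↔ CL l p := by
  have hpi := Real.pi_pos
  constructor
  · intro h δ hδ
    obtain ⟨ε₀, hε₀, h1⟩ := h δ hδ
    refine ⟨2 * Real.pi * ε₀, by positivity, fun ζ hζ hζ' => ?_⟩
    filter_upwards [h1 (ζ / (2 * Real.pi)) (by positivity) (by
      rw [div_lt_iff₀ (by positivity)]
      linarith), l1 hl] with T hT hT1
    rw [Pairs_eq hT1 (by positivity), N_eq,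
      show 2 * Real.pi * (ζ / (2 * Real.pi)) = ζ by field_simp] at hT
    exact hT
  · intro h δ hδ
    obtain ⟨ζ₀, hζ₀, h1⟩ := h δ hδ
    refine ⟨ζ₀ / (2 * Real.pi), by positivity, fun ε hε hε' => ?_⟩
    rw [lt_div_iff₀ (by positivity)] at hε'
    filter_upwards [h1 (2 * Real.pi * ε) (by positivity) (by linarith), l1 hl] with T hT hT1
    rwa [Pairs_eq hT1 hε, N_eq]

lemma least_iff (hl : l ≤ atTop) (p : ℝ) : ClustersAtLeast l p ↔ CU l p := by
  have hpi := Real.pi_pos
  constructor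
  · intro h δ hδ ζ hζ
    filter_upwards [h δ hδ (ζ / (2 * Real.pi)) (by positivity), l1 hl] with T hT hT1
    rw [Pairs_eq hT1 (by positivity), N_eq,
      show 2 * Real.pi * (ζ / (2 * Real.pi)) = ζ by field_simp] at hT
    exact hT
  · intro h δ hδ ε hε
    filter_upwards [h δ hδ (2 * Real.pi * ε) (by positivity), l1 hl] with T hT hT1
    rwa [Pairs_eq hT1 hε, N_eq]

lemma cum_zero (T : ℝ) : Pool.Agent.Helper84.OS.cum T 0 = 0 := by
  unfold Pool.Agent.Helper84.OS.cum
  simp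

lemma meanMost_iff (hRH : RiemannHypothesis) (hl : l ≤ atTop) (m : ℝ) :
    MeanAtMost l m ↔ MU l m := by
  unfold MeanAtMost MU
  refine forall_congr' fun δ => imp_congr_right fun _ => exists_congr fun A₀ =>
    and_congr_right fun _ => forall_congr' fun A => imp_congr_right fun _ => ?_
  refine eventually_congr ?_
  filter_upwards [l1 hl] with T hT
  rw [int_eq hRH hT, cum_zero, sub_zero]

lemma meanLeast_iff (hRH : RiemannHypothesis) (hl : l ≤ atTop) (m : ℝ) :
    MeanAtLeast l m ↔ ML l m := by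
  unfold MeanAtLeast ML
  refine forall_congr' fun δ => imp_congr_right fun _ => exists_congr fun A₀ =>
    and_congr_right fun _ => forall_congr' fun A => imp_congr_right fun _ => ?_
  refine eventually_congr ?_
  filter_upwards [l1 hl] with T hT
  rw [int_eq hRH hT, cum_zero, sub_zero]

lemma windows_iff (hRH : RiemannHypothesis) (hl : l ≤ atTop) (p : ℝ) :
    AllWindows l p ↔ MA l p := by
  unfold AllWindows MA
  refine forall_congr' fun δ => imp_congr_right fun _ => exists_congr fun A₀ =>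
    and_congr_right fun _ => forall_congr' fun A => imp_congr_right fun _ => ?_
  refine eventually_congr ?_
  filter_upwards [l1 hl] with T hT
  refine forall_congr' fun b => ?_
  rw [int_eq hRH hT]

lemma unit_iff (hRH : RiemannHypothesis) (hl : l ≤ atTop) :
    AlmostAllUnitWindows l ↔ AW l := by
  unfold AlmostAllUnitWindows AW
  refine forall_congr' fun δ => imp_congr_right fun _ => exists_congr fun n₀ =>
    forall_congr' fun n => imp_congr_right fun _ => ?_
  refine eventually_congr ?_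
  filter_upwards [l1 hl] with T hT
  have h1 : ∑ k ∈ Finset.range n, |(∫ α in (k + 1 : ℝ)..(k + 2), (F α T).re) - 1| =
      ∑ k ∈ Finset.range n, |Pool.Agent.Helper84.OS.cum T (k + 2) -
        Pool.Agent.Helper84.OS.cum T (k + 1) - 1| := by
    refine Finset.sum_congr rfl fun k _ => ?_
    rw [int_eq hRH hT]
  rw [h1]

/-- **Long mean values of Montgomery's function are governed by the clusters of zeros.** -/
theorem result (hRH : RiemannHypothesis) (l : Filter ℝ) (hl : l ≤ atTop) :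
    (∀ p : ℝ, 0 ≤ p → (ClustersAtMost l p ↔ MeanAtMost l (1 + p)) ∧
      (ClustersAtMost l p ↔ AllWindows l p)) ∧
    (∀ p : ℝ, 0 ≤ p → ((ClustersAtMost l p ∧ ClustersAtLeast l p) ↔
      (MeanAtMost l (1 + p) ∧ MeanAtLeast l (1 + p)))) ∧
    (Lower l 0 → (ClustersAtMost l 0 ↔ AlmostAllUnitWindows l)) := by
  refine ⟨fun p hp => ?_, fun p hp => ?_, fun hlow => ?_⟩
  · rw [most_iff hl, meanMost_iff hRH hl, windows_iff hRH hl]
    exact ⟨⟨fun h => ma_mu (cl_ma hRH hl hp h), mu_cl hRH hl hp⟩,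
      ⟨cl_ma hRH hl hp, fun h => mu_cl hRH hl hp (ma_mu h)⟩⟩
  · rw [most_iff hl, least_iff hl, meanMost_iff hRH hl, meanLeast_iff hRH hl]
    exact ⟨fun ⟨h1, h2⟩ => ⟨ma_mu (cl_ma hRH hl hp h1), cl_ml hRH hl hp h1 h2⟩,
      fun ⟨h1, h2⟩ => ⟨mu_cl hRH hl hp h1, ml_cu hRH hl hp h2⟩⟩
  · rw [most_iff hl, unit_iff hRH hl]
    exact ⟨cl_aw hRH hl (Lower_LH hRH hl hlow), aw_cl hRH hl⟩

end

end Pool.Agent.Results.MP_00e05b_nt.MeanValueAndClusters
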