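import Pool.Agent.Helper69.AH.GapL

/-!
# Unit masses of Montgomery's function, lattices of zeros, and the Alternative Hypothesis

Assume the Riemann hypothesis. Let `F(α, T)` be the function of Montgomery and `N(T)` the number of
the zeros with ordinates in `(0, T]`.

1. `F` has mass at most `1 + o(1)` in every short window `[b - ε, b + ε]`, uniformly in `b`
   (`T → ∞` and then `ε → 0`).
2. Let `T → ∞` (or let `T` run along any finer filter) and let `b = b_T` be real. The following are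
   equivalent:
   * `F` has mass one at `b`: `∫_(b-ε)^(b+ε) F(α, T) dα ≥ 1 - o(1)` for every `ε > 0`;
   * `F` is periodic in the mean with period `b`;
   * all but `o(N(T))` of the pairs of zeros within `K` mean spacings `2π / log T` of each other
     are, up to `o(1)` mean spacings, at a distance in the lattice `(1/b) ℤ`, for every `K`;
   * the same for all neighbours of all but `o(N(T))` zeros;
   * the same for all but `o(N(T))` of the gaps between consecutive zeros.
3. For `0 < b < 2` the masses are bounded away from one, uniformly: for every `δ > 0` there are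
   `ε > 0` and `c < 1` with `∫_(b-ε)^(b+ε) F(α, T) dα ≤ c` for all large `T` and all
   `b ∈ [δ, 2 - δ]`.
4. The (fixed) points of mass one are the multiples of a number `β`, with `β = 0` or `β ≥ 2`.
5. For `b = 2` the properties in 2 are the Alternative Hypothesis for almost all gaps. They hold if
   and only if `F(α, T)` tends in the mean to `|α - 2k|`, plus a unit mass at `2k`, on
   `(2k - 1, 2k + 1)`, for every integer `k`.

The proof: by Montgomery's theorem the zeros are so regular at a large scale `r` that clusters carry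
few pairs of zeros (the local numbers of zeros are uniformly square integrable); mass one at `b`
says that the phases `exp(i b γ log T)` of almost all zeros in a window of size `r` agree, and the
comparison of two near zeros with all the zeros of the window transfers this to the small scale.
-/

open Complex MeasureTheory Filter Topology

namespace Pool.Agent.Results.MP_00e05b_nt.UnitMasses

/-- the nontrivial zeros of `ζ` with ordinate in `(0, T]` -/
def zeros (T : ℝ) : Set ℂ :=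
  {s : ℂ | 0 < s.re ∧ s.re < 1 ∧ 0 < s.im ∧ s.im ≤ T ∧ riemannZeta s = 0}

/-- the multiplicity of `s` as a zero of `ζ` -/
noncomputable def mult (s : ℂ) : ℕ := analyticOrderNatAt riemannZeta s

/-- Montgomery's function
`F(α, T) = (T/2π log T)⁻¹ ∑_{γ, γ'} T^(iα(γ-γ')) w(γ-γ')`, `w(u) = 4/(4+u²)`,
zeros with multiplicity -/
noncomputable def F (α T : ℝ) : ℂ :=
  ((T / (2 * Real.pi) * Real.log T : ℝ) : ℂ)⁻¹ *
    ∑ᶠ s ∈ zeros T, ∑ᶠ s' ∈ zeros T, (mult s : ℂ) * (mult s' : ℂ) *
      ((T : ℂ) ^ (I * α * (s.im - s'.im)) * (4 / (4 + (s.im - s'.im : ℂ) ^ 2)))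

/-- the number of the zeros with ordinate in `(0, T]`, with multiplicity -/
noncomputable def N (T : ℝ) : ℝ := ∑ᶠ s ∈ zeros T, (mult s : ℝ)

/-- the distance `x`, in units of the mean spacing `2π / log T`, is off the lattice `(1/b) ℤ` -/
def OffLattice (b δ T x : ℝ) : Prop :=
  ∀ n : ℤ, δ ≤ |b * (x * Real.log T / (2 * Real.pi)) - n|

open Classical in
/-- the number of the ordered pairs of zeros (with multiplicity) within `K` mean spacings whose
difference is off the lattice -/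
noncomputable def OffPairs (b K δ T : ℝ) : ℝ :=
  ∑ᶠ s ∈ zeros T, ∑ᶠ s' ∈ zeros T,
    if |s.im - s'.im| ≤ 2 * Real.pi * K / Real.log T ∧ OffLattice b δ T (s.im - s'.im)
    then (mult s : ℝ) * (mult s' : ℝ) else 0

open Classical in
/-- the number of the zeros (with multiplicity) having a zero within `K` mean spacings such that
the difference is off the lattice -/
noncomputable def OffZeros (b K δ T : ℝ) : ℝ :=
  ∑ᶠ s ∈ zeros T,
    if ∃ s' ∈ zeros T, |s.im - s'.im| ≤ 2 * Real.pi * K / Real.log T ∧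
      OffLattice b δ T (s.im - s'.im)
    then (mult s : ℝ) else 0

/-- the number of the zeros followed by a gap (to the next larger ordinate up to `T`) which is off
the lattice -/
noncomputable def OffGaps (b δ T : ℝ) : ℕ :=
  {s : ℂ | s ∈ zeros T ∧ ∃ s' ∈ zeros T, s.im < s'.im ∧
    (∀ u ∈ zeros T, s.im < u.im → s'.im ≤ u.im) ∧ OffLattice b δ T (s'.im - s.im)}.ncard

/-- `F` has mass one at `b T` -/
def MassOne (l : Filter ℝ) (b : ℝ → ℝ) : Prop := ∀ ε : ℝ, 0 < ε → ∀ c : ℝ, c < 1 →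
  ∀ᶠ T in l, c ≤ ∫ α in (b T - ε)..(b T + ε), (F α T).re

/-- `F` is periodic in the mean with period `b T` -/
def PeriodicInMean (l : Filter ℝ) (b : ℝ → ℝ) : Prop := ∀ g : ℝ → ℝ,
  ContDiff ℝ ((⊤ : ℕ∞) : WithTop ℕ∞) g → HasCompactSupport g →
  Tendsto (fun T => (∫ α, g α * (F (α + b T) T).re) - ∫ α, g α * (F α T).re) l (𝓝 0)

/-- almost all close pairs are on the lattice -/
def PairsOnLattice (l : Filter ℝ) (b : ℝ → ℝ) : Prop := ∀ K δ κ : ℝ, 0 < K → 0 < δ → 0 < κ →
  ∀ᶠ T in l, OffPairs (b T) K δ T ≤ κ * N T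

/-- almost all zeros have all their neighbours on the lattice -/
def ZerosOnLattice (l : Filter ℝ) (b : ℝ → ℝ) : Prop := ∀ K δ κ : ℝ, 0 < K → 0 < δ → 0 < κ →
  ∀ᶠ T in l, OffZeros (b T) K δ T ≤ κ * N T

/-- almost all gaps are on the lattice -/
def GapsOnLattice (l : Filter ℝ) (b : ℝ → ℝ) : Prop := ∀ δ κ : ℝ, 0 < δ → 0 < κ →
  ∀ᶠ T in l, (OffGaps (b T) δ T : ℝ) ≤ κ * N T

/-- `F(α, T)` tends in the mean to `|α - 2k|`, plus a unit mass at `2k`, on `(2k - 1, 2k + 1)` -/
def AlternativeForm (l : Filter ℝ) : Prop := ∀ k : ℤ, ∀ c d : ℝ, 0 < c → c < 1 → 0 < d → d < 1 →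
  Tendsto (fun T => ∫ α in (2 * k - c)..(2 * k + d), (F α T).re) l (𝓝 (1 + (c ^ 2 + d ^ 2) / 2))

lemma zeros_finite (T : ℝ) : (zeros T).Finite := H370.zeta_zeros_finite T

lemma F_eq (hRH : RiemannHypothesis) (α T : ℝ) (hT : 1 < T) :
    F α T = ((H332B.Wp T (α * Real.log T) / H332B.X T : ℝ) : ℂ) := by
  have hT0 : (0 : ℝ) < T := by linarith
  have hTc : (T : ℂ) ≠ 0 := by exact_mod_cast hT0.ne'
  -- the sum
  set S : ℂ := ∑ s ∈ H343.ZSide.Z0 T, ∑ s' ∈ H343.ZSide.Z0 T, (mult s : ℂ) * (mult s' : ℂ) *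
      ((T : ℂ) ^ (I * α * (s.im - s'.im)) * (4 / (4 + (s.im - s'.im : ℂ) ^ 2))) with hS
  have hF : F α T = ((T / (2 * Real.pi) * Real.log T : ℝ) : ℂ)⁻¹ * S := by
    unfold F
    congr 1
    rw [finsum_mem_eq_finite_toFinset_sum _ (zeros_finite T)]
    apply Finset.sum_congr rfl
    intro s _
    rw [finsum_mem_eq_finite_toFinset_sum _ (zeros_finite T)]
    rfl
  have hterm : ∀ s s' : ℂ, (mult s : ℂ) * (mult s' : ℂ) *
      ((T : ℂ) ^ (I * α * (s.im - s'.im)) * (4 / (4 + (s.im - s'.im : ℂ) ^ 2))) =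
      ((H343.ZSide.mz s * H343.ZSide.mz s' * (4 / (4 + (s.im - s'.im) ^ 2)) : ℝ) : ℂ) *
        cexp (((α * Real.log T * (s.im - s'.im) : ℝ) : ℂ) * I) := by
    intro s s'
    rw [Complex.cpow_def_of_ne_zero hTc, ← Complex.ofReal_log hT0.le]
    unfold H343.ZSide.mz mult H370.mult
    push_cast
    rw [show (Real.log T : ℂ) * (I * α * (s.im - s'.im)) =
      α * Real.log T * (s.im - s'.im) * I by ring]
    ring
  have hre : S.re = H332B.Wp T (α * Real.log T) := by
    rw [H332B.wpc hRH]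
    unfold H332B.K2
    rw [hS, Complex.re_sum]
    apply Finset.sum_congr rfl
    intro s _
    rw [Complex.re_sum]
    apply Finset.sum_congr rfl
    intro s' _
    rw [hterm, Complex.re_ofReal_mul, Complex.exp_ofReal_mul_I_re]
    ring
  have him : S.im = 0 := by
    have h1 : S.im = ∑ s ∈ H343.ZSide.Z0 T, ∑ s' ∈ H343.ZSide.Z0 T,
        H343.ZSide.mz s * H343.ZSide.mz s' * (4 / (4 + (s.im - s'.im) ^ 2)) *
          Real.sin (α * Real.log T * (s.im - s'.im)) := by
      rw [hS, Complex.im_sum]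
      apply Finset.sum_congr rfl
      intro s _
      rw [Complex.im_sum]
      apply Finset.sum_congr rfl
      intro s' _
      rw [hterm, Complex.im_ofReal_mul, Complex.exp_ofReal_mul_I_im]
    have h2 : S.im = -S.im := by
      conv_lhs => rw [h1, Finset.sum_comm]
      rw [h1, ← Finset.sum_neg_distrib]
      apply Finset.sum_congr rfl
      intro s _
      rw [← Finset.sum_neg_distrib]
      apply Finset.sum_congr rfl
      intro s' _
      rw [show α * Real.log T * (s'.im - s.im) = -(α * Real.log T * (s.im - s'.im)) by ring,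
        Real.sin_neg, show (s'.im - s.im) ^ 2 = (s.im - s'.im) ^ 2 by ring]
      ring
    linarith
  have hSr : S = ((H332B.Wp T (α * Real.log T) : ℝ) : ℂ) := by
    apply Complex.ext
    · rw [hre, Complex.ofReal_re]
    · rw [him, Complex.ofReal_im]
  rw [hF, hSr, ← Complex.ofReal_inv, ← Complex.ofReal_mul]
  congr 1
  unfold H332B.X
  have hlog : 0 < Real.log T := Real.log_pos hT
  have := Real.pi_pos
  field_simp

lemma re_eq (hRH : RiemannHypothesis) {T : ℝ} (hT : 1 < T) (α : ℝ) :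
    (F α T).re = H332B.Wp T (α * Real.log T) / H332B.X T := by
  rw [F_eq hRH α T hT, Complex.ofReal_re]

open Pool.Agent.Helper84.OS in
lemma int_eq (hRH : RiemannHypothesis) {T : ℝ} (hT : 1 < T) (b c : ℝ) :
    ∫ α in b..c, (F α T).re = cum T c - cum T b := by
  simp_rw [re_eq hRH hT]
  rw [cum_sub hRH, intervalIntegral.integral_div]

lemma N_eq (T : ℝ) : N T = Pool.Agent.Helper69.PC.NZ T := by
  rw [← Pool.Agent.Helper69.PC.NZ_sum]
  unfold N
  rw [finsum_mem_eq_finite_toFinset_sum _ (zeros_finite T)]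
  rfl


section

open Pool.Agent.Helper69.AH
open Pool.Agent.Helper69.PC (NZ NZ_asymp NZ_nonneg ind)
open Pool.Agent.Helper84.OS (X_pos)

variable {l : Filter ℝ}

lemma l1 (hl : l ≤ atTop) : ∀ᶠ T in l, (1 : ℝ) < T :=
  (eventually_gt_atTop (1 : ℝ)).filter_mono hl

lemma comp (hl : l ≤ atTop) : ∀ᶠ T in l, 0 < H332B.X T ∧ H332B.X T ≤ 2 * N T ∧
    N T ≤ 2 * H332B.X T := by
  filter_upwards [(NZ_asymp (ε := 1 / 2) (by norm_num)).filter_mono hl, l1 hl] with T h hT
  have hX := X_pos hT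
  rw [N_eq]
  exact ⟨hX, by linarith [h.1], by linarith [h.2]⟩

/-- change of the normalisation -/
lemma norm_iff (hl : l ≤ atTop) (f : ℝ → ℝ) :
    (∀ κ : ℝ, 0 < κ → ∀ᶠ T in l, f T ≤ κ * N T) ↔
      ∀ κ : ℝ, 0 < κ → ∀ᶠ T in l, f T ≤ κ * H332B.X T := by
  constructor
  · intro h κ hκ
    filter_upwards [h (κ / 2) (by positivity), comp hl] with T h1 h2
    refine h1.trans ?_
    have : κ / 2 * N T ≤ κ / 2 * (2 * H332B.X T) := by
      gcongr
      exact h2.2.2
    linarith
  · intro h κ hκ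
    filter_upwards [h (κ / 2) (by positivity), comp hl] with T h1 h2
    refine h1.trans ?_
    have : κ / 2 * H332B.X T ≤ κ / 2 * (2 * N T) := by
      gcongr
      exact h2.2.1
    linarith

lemma off_iff (b δ T x : ℝ) : OffLattice b δ T x ↔ Off b δ T x := by
  unfold OffLattice Off
  have : b * (x * Real.log T / (2 * Real.pi)) = b * (Real.log T * x) / (2 * Real.pi) := by ring
  rw [this]

lemma near_iff {T : ℝ} (hT : 1 < T) (K x : ℝ) :
    |x| ≤ 2 * Real.pi * K / Real.log T ↔ |Real.log T * x| ≤ 2 * Real.pi * K := by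
  have hL : 0 < Real.log T := Real.log_pos hT
  rw [abs_mul, abs_of_pos hL, le_div_iff₀ hL, mul_comm]

lemma pairs_eq {T : ℝ} (hT : 1 < T) (b K δ : ℝ) : OffPairs b K δ T =
    H332B.K2 T (fun x => ind T (2 * Real.pi * K) x * off b δ T x) := by
  classical
  unfold OffPairs
  rw [finsum_mem_eq_finite_toFinset_sum _ (zeros_finite T)]
  unfold H332B.K2
  apply Finset.sum_congr rfl
  intro s _
  rw [finsum_mem_eq_finite_toFinset_sum _ (zeros_finite T)]
  apply Finset.sum_congr rfl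
  intro s' _
  beta_reduce
  unfold Pool.Agent.Helper69.PC.ind off
  rw [← off_iff]
  by_cases h1 : |s.im - s'.im| ≤ 2 * Real.pi * K / Real.log T
  · rw [if_pos ((near_iff hT K _).1 h1), one_mul]
    by_cases h2 : OffLattice b δ T (s.im - s'.im)
    · rw [if_pos ⟨h1, h2⟩, if_pos h2, mul_one]
      rfl
    · rw [if_neg (fun h => h2 h.2), if_neg h2, mul_zero]
  · rw [if_neg (fun h => h1 h.1), if_neg (fun h => h1 ((near_iff hT K _).2 h)), zero_mul, mul_zero]

open Classical in
lemma zeros_eq {T : ℝ} (hT : 1 < T) (b K δ : ℝ) : OffZeros b K δ T =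
    ∑ s ∈ H343.ZSide.Z0 T, H343.ZSide.mz s * (if ∃ s' ∈ H343.ZSide.Z0 T,
      |Real.log T * (s.im - s'.im)| ≤ 2 * Real.pi * K ∧ Off b δ T (s.im - s'.im)
        then 1 else 0) := by
  unfold OffZeros
  rw [finsum_mem_eq_finite_toFinset_sum _ (zeros_finite T)]
  apply Finset.sum_congr rfl
  intro s _
  have h1 : (∃ s' ∈ zeros T, |s.im - s'.im| ≤ 2 * Real.pi * K / Real.log T ∧
      OffLattice b δ T (s.im - s'.im)) ↔ ∃ s' ∈ H343.ZSide.Z0 T,
      |Real.log T * (s.im - s'.im)| ≤ 2 * Real.pi * K ∧ Off b δ T (s.im - s'.im) := by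
    constructor
    · rintro ⟨s', h2, h3, h4⟩
      exact ⟨s', (Set.Finite.mem_toFinset _).2 h2, (near_iff hT K _).1 h3, (off_iff _ _ _ _).1 h4⟩
    · rintro ⟨s', h2, h3, h4⟩
      exact ⟨s', (Set.Finite.mem_toFinset (zeros_finite T)).1 h2, (near_iff hT K _).2 h3,
        (off_iff _ _ _ _).2 h4⟩
  by_cases h : ∃ s' ∈ zeros T, |s.im - s'.im| ≤ 2 * Real.pi * K / Real.log T ∧
      OffLattice b δ T (s.im - s'.im)
  · rw [if_pos h, if_pos (h1.1 h), mul_one]
    rfl
  · rw [if_neg h, if_neg (fun h' => h (h1.2 h')), mul_zero]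

open Classical in
lemma gaps_eq (b δ T : ℝ) : (OffGaps b δ T : ℝ) =
    ∑ s ∈ H343.ZSide.Z0 T, (if BadG b δ T s then (1 : ℝ) else 0) := by
  have hmem : ∀ u : ℂ, u ∈ H343.ZSide.Z0 T ↔ u ∈ zeros T := fun u =>
    Set.Finite.mem_toFinset (zeros_finite T)
  have h1 : {s : ℂ | s ∈ zeros T ∧ ∃ s' ∈ zeros T, s.im < s'.im ∧
      (∀ u ∈ zeros T, s.im < u.im → s'.im ≤ u.im) ∧ OffLattice b δ T (s'.im - s.im)} =
      (((H343.ZSide.Z0 T).filter fun s => BadG b δ T s : Finset ℂ) : Set ℂ) := by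
    ext s
    rw [Finset.coe_filter, Set.mem_ofPred_eq, Set.mem_ofPred_eq, hmem]
    refine and_congr_right fun _ => ?_
    unfold BadG Nxt
    constructor
    · rintro ⟨s', h2, h3, h4, h5⟩
      exact ⟨s', ⟨(hmem s').2 h2, h3, fun u hu => h4 u ((hmem u).1 hu)⟩, (off_iff _ _ _ _).1 h5⟩
    · rintro ⟨s', ⟨h2, h3, h4⟩, h5⟩
      exact ⟨s', (hmem s').1 h2, h3, fun u hu => h4 u ((hmem u).2 hu), (off_iff _ _ _ _).2 h5⟩
  unfold OffGaps
  rw [h1, Set.ncard_coe_finset, Finset.card_filter]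
  push_cast
  rfl

lemma mass_iff (hRH : RiemannHypothesis) (hl : l ≤ atTop) (b : ℝ → ℝ) :
    MassOne l b ↔ M1 l b := by
  unfold MassOne M1
  refine forall_congr' fun ε => imp_congr_right fun _ => forall_congr' fun c =>
    imp_congr_right fun _ => eventually_congr ?_
  filter_upwards [l1 hl] with T hT
  rw [int_eq hRH hT]

lemma per_iff (hRH : RiemannHypothesis) (hl : l ≤ atTop) (b : ℝ → ℝ) :
    PeriodicInMean l b ↔ Per l b := by
  unfold PeriodicInMean Per
  refine forall_congr' fun g => imp_congr_right fun _ => imp_congr_right fun _ => ?_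
  refine tendsto_congr' ?_
  filter_upwards [l1 hl] with T hT
  simp_rw [re_eq hRH hT]
  rw [sub_div, ← integral_div, ← integral_div]
  simp only [mul_div_assoc]

lemma pairs_iff (hl : l ≤ atTop) (b : ℝ → ℝ) : PairsOnLattice l b ↔ PL l b := by
  have hpi := Real.pi_pos
  constructor
  · intro h K δ κ hK hδ hκ
    have h1 := (norm_iff hl fun T => OffPairs (b T) (K / (2 * Real.pi)) δ T).1
      (fun κ hκ => h (K / (2 * Real.pi)) δ κ (by positivity) hδ hκ) κ hκ
    filter_upwards [h1, l1 hl] with T h2 hT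
    rw [pairs_eq hT, show 2 * Real.pi * (K / (2 * Real.pi)) = K by field_simp] at h2
    exact h2
  · intro h K δ κ hK hδ hκ
    refine (norm_iff hl fun T => OffPairs (b T) K δ T).2 (fun κ hκ => ?_) κ hκ
    filter_upwards [h (2 * Real.pi * K) δ κ (by positivity) hδ hκ, l1 hl] with T h2 hT
    rw [pairs_eq hT]
    exact h2

lemma zeros_iff (hl : l ≤ atTop) (b : ℝ → ℝ) : ZerosOnLattice l b ↔ ZL l b := by
  have hpi := Real.pi_pos
  constructor
  · intro h K δ κ hK hδ hκ
    have h1 := (norm_iff hl fun T => OffZeros (b T) (K / (2 * Real.pi)) δ T).1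
      (fun κ hκ => h (K / (2 * Real.pi)) δ κ (by positivity) hδ hκ) κ hκ
    filter_upwards [h1, l1 hl] with T h2 hT
    rw [zeros_eq hT, show 2 * Real.pi * (K / (2 * Real.pi)) = K by field_simp] at h2
    exact h2
  · intro h K δ κ hK hδ hκ
    refine (norm_iff hl fun T => OffZeros (b T) K δ T).2 (fun κ hκ => ?_) κ hκ
    filter_upwards [h (2 * Real.pi * K) δ κ (by positivity) hδ hκ, l1 hl] with T h2 hT
    rw [zeros_eq hT]
    exact h2

lemma gaps_iff (hl : l ≤ atTop) (b : ℝ → ℝ) : GapsOnLattice l b ↔ GapLat l b := by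
  constructor
  · intro h δ κ hδ hκ
    have h1 := (norm_iff hl fun T => (OffGaps (b T) δ T : ℝ)).1 (fun κ hκ => h δ κ hδ hκ) κ hκ
    filter_upwards [h1] with T h2
    rwa [gaps_eq] at h2
  · intro h δ κ hδ hκ
    refine (norm_iff hl fun T => (OffGaps (b T) δ T : ℝ)).2 (fun κ hκ => ?_) κ hκ
    filter_upwards [h δ κ hδ hκ] with T h2
    rwa [gaps_eq]

lemma form_iff (hRH : RiemannHypothesis) (hl : l ≤ atTop) : AlternativeForm l ↔ AHF l := by
  unfold AlternativeForm AHF
  refine forall_congr' fun k => forall_congr' fun c => forall_congr' fun d =>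
    imp_congr_right fun _ => imp_congr_right fun _ => imp_congr_right fun _ =>
    imp_congr_right fun _ => tendsto_congr' ?_
  filter_upwards [l1 hl] with T hT
  rw [int_eq hRH hT]

/-- **Unit masses of Montgomery's function, lattices of zeros, and the Alternative Hypothesis.** -/
theorem result (hRH : RiemannHypothesis) :
    (∀ η : ℝ, 0 < η → ∃ ε : ℝ, 0 < ε ∧ ∀ᶠ T in atTop, ∀ b : ℝ,
      ∫ α in (b - ε)..(b + ε), (F α T).re ≤ 1 + η) ∧
    (∀ l : Filter ℝ, l ≤ atTop → ∀ b : ℝ → ℝ, List.TFAE [MassOne l b, PeriodicInMean l b,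
      PairsOnLattice l b, ZerosOnLattice l b, GapsOnLattice l b]) ∧
    (∀ δ : ℝ, 0 < δ → ∃ ε : ℝ, 0 < ε ∧ ∃ c : ℝ, c < 1 ∧ ∀ᶠ T in atTop, ∀ b : ℝ,
      δ ≤ b → b ≤ 2 - δ → ∫ α in (b - ε)..(b + ε), (F α T).re ≤ c) ∧
    (∀ l : Filter ℝ, l ≤ atTop → l.NeBot → ∃ β : ℝ, (β = 0 ∨ 2 ≤ β) ∧
      ∀ b : ℝ, MassOne l (fun _ => b) ↔ ∃ n : ℤ, b = n * β) ∧
    (∀ l : Filter ℝ, l ≤ atTop → (MassOne l (fun _ => 2) ↔ AlternativeForm l)) := by
  refine ⟨fun η hη => ?_, fun l hl b => ?_, fun δ hδ => ?_, fun l hl hne => ?_, fun l hl => ?_⟩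
  · obtain ⟨ε, hε, h⟩ := mass_le hRH hη
    refine ⟨ε, hε, ?_⟩
    filter_upwards [h, eventually_gt_atTop (1 : ℝ)] with T h1 hT b
    rw [int_eq hRH hT]
    exact h1 b
  · rw [mass_iff hRH hl, per_iff hRH hl, pairs_iff hl, zeros_iff hl, gaps_iff hl]
    tfae_have 1 → 2 := fun h => Dq_Per hRH hl (M1_Dq hRH hl h)
    tfae_have 2 → 1 := fun h => Per_M1 hRH hl h
    tfae_have 1 → 3 := fun h => Dq_PL (M1_Dq hRH hl h)
    tfae_have 3 → 4 := fun h => PL_ZL h
    tfae_have 4 → 5 := fun h => ZL_GL hRH hl h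
    tfae_have 5 → 1 := fun h => Dq_M1 hRH hl (GL_Dq hRH hl h)
    tfae_finish
  · obtain ⟨ε, hε, c, hc, h⟩ := gap hRH hδ
    refine ⟨ε, hε, c, hc, ?_⟩
    filter_upwards [h, eventually_gt_atTop (1 : ℝ)] with T h1 hT b hb1 hb2
    rw [int_eq hRH hT]
    exact h1 b hb1 hb2
  · obtain ⟨β, hβ, h⟩ := group hRH hl
    exact ⟨β, hβ, fun b => by rw [mass_iff hRH hl, h b]⟩
  · rw [mass_iff hRH hl, form_iff hRH hl]
    exact two_iff hRH hl

end

end Pool.Agent.Results.MP_00e05b_nt.UnitMasses
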