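import Pool.Agent.Helper84.OS.Main

/-!
# The averaged pair correlation conjecture is equivalent to its upper half
-/

open Complex MeasureTheory Filter Topology

namespace Pool.Agent.Results.MP_00e05b_nt.UpperHalf

/-- the nontrivial zeros of `ζ` with ordinate in `(0, T]` -/
def zeros (T : ℝ) : Set ℂ :=
  {s : ℂ | 0 < s.re ∧ s.re < 1 ∧ 0 < s.im ∧ s.im ≤ T ∧ riemannZeta s = 0}

/-- the multiplicity of `s` as a zero of `ζ` -/
noncomputable def mult (s : ℂ) : ℕ := analyticOrderNatAt riemannZeta s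

/-- Montgomery's function
`F(α, T) = (T/2π log T)⁻¹ ∑_{γ, γ'} T^(iα(γ-γ')) w(γ-γ')`, `w(u) = 4/(4+u²)`,
zeros with multiplicity -/
noncomputable def F (α T : ℝ) : ℂ :=
  ((T / (2 * Real.pi) * Real.log T : ℝ) : ℂ)⁻¹ *
    ∑ᶠ s ∈ zeros T, ∑ᶠ s' ∈ zeros T, (mult s : ℂ) * (mult s' : ℂ) *
      ((T : ℂ) ^ (I * α * (s.im - s'.im)) * (4 / (4 + (s.im - s'.im : ℂ) ^ 2)))

lemma zeros_finite (T : ℝ) : (zeros T).Finite := H370.zeta_zeros_finite T

lemma F_eq (hRH : RiemannHypothesis) (α T : ℝ) (hT : 1 < T) :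
    F α T = ((H332B.Wp T (α * Real.log T) / H332B.X T : ℝ) : ℂ) := by
  have hT0 : (0 : ℝ) < T := by linarith
  have hTc : (T : ℂ) ≠ 0 := by exact_mod_cast hT0.ne'
  -- the sum
  set S : ℂ := ∑ s ∈ H343.ZSide.Z0 T, ∑ s' ∈ H343.ZSide.Z0 T, (mult s : ℂ) * (mult s' : ℂ) *
      ((T : ℂ) ^ (I * α * (s.im - s'.im)) * (4 / (4 + (s.im - s'.im : ℂ) ^ 2))) with hS
  have hF : F α T = ((T / (2 * Real.pi) * Real.log T : ℝ) : ℂ)⁻¹ * S := by
    unfold F
    congr 1
    rw [finsum_mem_eq_finite_toFinset_sum _ (zeros_finite T)]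
    apply Finset.sum_congr rfl
    intro s _
    rw [finsum_mem_eq_finite_toFinset_sum _ (zeros_finite T)]
    rfl
  have hterm : ∀ s s' : ℂ, (mult s : ℂ) * (mult s' : ℂ) *
      ((T : ℂ) ^ (I * α * (s.im - s'.im)) * (4 / (4 + (s.im - s'.im : ℂ) ^ 2))) =
      ((H343.ZSide.mz s * H343.ZSide.mz s' * (4 / (4 + (s.im - s'.im) ^ 2)) : ℝ) : ℂ) *
        cexp (((α * Real.log T * (s.im - s'.im) : ℝ) : ℂ) * I) := by
    intro s s'
    rw [Complex.cpow_def_of_ne_zero hTc, ← Complex.ofReal_log hT0.le]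
    unfold H343.ZSide.mz mult H370.mult
    push_cast
    rw [show (Real.log T : ℂ) * (I * α * (s.im - s'.im)) =
      α * Real.log T * (s.im - s'.im) * I by ring]
    ring
  have hre : S.re = H332B.Wp T (α * Real.log T) := by
    rw [H332B.wpc hRH]
    unfold H332B.K2
    rw [hS, Complex.re_sum]
    apply Finset.sum_congr rfl
    intro s _
    rw [Complex.re_sum]
    apply Finset.sum_congr rfl
    intro s' _
    rw [hterm, Complex.re_ofReal_mul, Complex.exp_ofReal_mul_I_re]
    ring
  have him : S.im = 0 := by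
    have h1 : S.im = ∑ s ∈ H343.ZSide.Z0 T, ∑ s' ∈ H343.ZSide.Z0 T,
        H343.ZSide.mz s * H343.ZSide.mz s' * (4 / (4 + (s.im - s'.im) ^ 2)) *
          Real.sin (α * Real.log T * (s.im - s'.im)) := by
      rw [hS, Complex.im_sum]
      apply Finset.sum_congr rfl
      intro s _
      rw [Complex.im_sum]
      apply Finset.sum_congr rfl
      intro s' _
      rw [hterm, Complex.im_ofReal_mul, Complex.exp_ofReal_mul_I_im]
    have h2 : S.im = -S.im := by
      conv_lhs => rw [h1, Finset.sum_comm]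
      rw [h1, ← Finset.sum_neg_distrib]
      apply Finset.sum_congr rfl
      intro s _
      rw [← Finset.sum_neg_distrib]
      apply Finset.sum_congr rfl
      intro s' _
      rw [show α * Real.log T * (s'.im - s.im) = -(α * Real.log T * (s.im - s'.im)) by ring,
        Real.sin_neg, show (s'.im - s.im) ^ 2 = (s.im - s'.im) ^ 2 by ring]
      ring
    linarith
  have hSr : S = ((H332B.Wp T (α * Real.log T) : ℝ) : ℂ) := by
    apply Complex.ext
    · rw [hre, Complex.ofReal_re]
    · rw [him, Complex.ofReal_im]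
  rw [hF, hSr, ← Complex.ofReal_inv, ← Complex.ofReal_mul]
  congr 1
  unfold H332B.X
  have hlog : 0 < Real.log T := Real.log_pos hT
  have := Real.pi_pos
  field_simp

lemma re_eq (hRH : RiemannHypothesis) {T : ℝ} (hT : 1 < T) (α : ℝ) :
    (F α T).re = H332B.Wp T (α * Real.log T) / H332B.X T := by
  rw [F_eq hRH α T hT, Complex.ofReal_re]

open Pool.Agent.Helper84.OS in
lemma int_eq (hRH : RiemannHypothesis) {T : ℝ} (hT : 1 < T) (b c : ℝ) :
    ∫ α in b..c, (F α T).re = cum T c - cum T b := by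
  simp_rw [re_eq hRH hT]
  rw [cum_sub hRH, intervalIntegral.integral_div]

lemma re_cont (hRH : RiemannHypothesis) {T : ℝ} (hT : 1 < T) : Continuous fun α => (F α T).re := by
  simp_rw [re_eq hRH hT]
  exact (Pool.Agent.Helper84.OS.Wc hRH T).div_const _

/-- **The averaged pair correlation conjecture is equivalent to its upper half.** -/
theorem result (hRH : RiemannHypothesis) (l : Filter ℝ) (hl : l ≤ atTop) :
    ((∀ b c : ℝ, 0 < b → b < c →
        Tendsto (fun T => ∫ α in b..c, (F α T).re) l (𝓝 (∫ α in b..c, min α 1))) ↔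
      ∀ b c : ℝ, 0 < b → b < c → ∀ ε : ℝ, 0 < ε →
        ∀ᶠ T in l, ∫ α in b..c, (F α T).re ≤ (∫ α in b..c, min α 1) + ε) ∧
    ((∀ b c : ℝ, 0 < b → b < c →
        Tendsto (fun T => ∫ α in b..c, |(F α T).re - min α 1|) l (𝓝 0)) ↔
      ∀ b c : ℝ, 0 < b → b < c →
        Tendsto (fun T => ∫ α in b..c, max ((F α T).re - min α 1) 0) l (𝓝 0)) ∧
    (∀ A η : ℝ, 0 ≤ η → (∀ b c : ℝ, 0 < b → b < c → c ≤ A → ∀ ε : ℝ, 0 < ε →
        ∀ᶠ T in l, ∫ α in b..c, (F α T).re ≤ (∫ α in b..c, min α 1) + η + ε) →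
      ∀ b c : ℝ, 0 < b → b < c → c < A → ∀ ε : ℝ, 0 < ε →
        ∀ᶠ T in l, (∫ α in b..c, min α 1) - (1 / 6 + 2 * A * η) / (A - c) - ε ≤
          ∫ α in b..c, (F α T).re) := by
  have hl1 : ∀ᶠ T in l, (1 : ℝ) < T := (eventually_gt_atTop (1 : ℝ)).filter_mono hl
  have quant : ∀ A η : ℝ, 0 ≤ η → (∀ b c : ℝ, 0 < b → b < c → c ≤ A → ∀ ε : ℝ, 0 < ε →
        ∀ᶠ T in l, ∫ α in b..c, (F α T).re ≤ (∫ α in b..c, min α 1) + η + ε) →
      ∀ b c : ℝ, 0 < b → b < c → c < A → ∀ ε : ℝ, 0 < ε →
        ∀ᶠ T in l, (∫ α in b..c, min α 1) - (1 / 6 + 2 * A * η) / (A - c) - ε ≤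
          ∫ α in b..c, (F α T).re := by
    intro A η hη h b c hb hbc hcA ε hε
    have hU : Pool.Agent.Helper84.OS.UH l A η := by
      intro b c hb hbc hcA ε hε
      filter_upwards [h b c hb hbc hcA ε hε, hl1] with T hT hT1
      rw [int_eq hRH hT1, Pool.Agent.Helper84.OS.mm_sub] at hT
      exact hT
    filter_upwards [Pool.Agent.Helper84.OS.deficit hRH hl hη hU hb hbc hcA hε, hl1] with T hT hT1
    rw [int_eq hRH hT1, Pool.Agent.Helper84.OS.mm_sub]
    exact hT
  have half : (∀ b c : ℝ, 0 < b → b < c → ∀ ε : ℝ, 0 < ε →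
        ∀ᶠ T in l, ∫ α in b..c, (F α T).re ≤ (∫ α in b..c, min α 1) + ε) →
      ∀ b c : ℝ, 0 < b → b < c →
        Tendsto (fun T => ∫ α in b..c, (F α T).re) l (𝓝 (∫ α in b..c, min α 1)) := by
    intro h b c hb hbc
    rw [Metric.tendsto_nhds]
    intro ε hε
    set A : ℝ := c + 1 / ε with hA
    have hA0 : 0 < 1 / ε := by positivity
    have h1 := quant A 0 le_rfl (fun b c hb hbc _ ε hε => by
      simpa using h b c hb hbc ε hε) b c hb hbc (by linarith) (ε / 2) (by positivity)
    filter_upwards [h1, h b c hb hbc (ε / 2) (by positivity)] with T h1 h2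
    have h3 : (1 / 6 + 2 * A * 0) / (A - c) = ε / 6 := by
      rw [hA]
      field_simp
      ring
    rw [h3] at h1
    rw [Real.dist_eq, abs_lt]
    constructor <;> linarith
  refine ⟨⟨fun h b c hb hbc ε hε => ?_, half⟩, ⟨fun h b c hb hbc => ?_, fun h b c hb hbc => ?_⟩,
    quant⟩
  · filter_upwards [(Metric.tendsto_nhds.1 (h b c hb hbc)) ε hε] with T hT
    rw [Real.dist_eq, abs_lt] at hT
    linarith [hT.2]
  · refine squeeze_zero' ?_ ?_ (h b c hb hbc)
    · exact Eventually.of_forall fun T =>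
        intervalIntegral.integral_nonneg hbc.le fun α _ => le_max_right _ _
    · filter_upwards [hl1] with T hT
      have hc := re_cont hRH hT
      refine intervalIntegral.integral_mono_on hbc.le ?_ ?_ fun α _ => ?_
      · exact (by fun_prop : Continuous fun α => max ((F α T).re - min α 1) 0).intervalIntegrable _ _
      · exact (by fun_prop : Continuous fun α => |(F α T).re - min α 1|).intervalIntegrable _ _
      · exact max_le (le_abs_self _) (abs_nonneg _)
  · have h1 : ∀ b c : ℝ, 0 < b → b < c → ∀ ε : ℝ, 0 < ε →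
        ∀ᶠ T in l, ∫ α in b..c, (F α T).re ≤ (∫ α in b..c, min α 1) + ε := by
      intro b c hb hbc ε hε
      filter_upwards [(Metric.tendsto_nhds.1 (h b c hb hbc)) ε hε, hl1] with T hT hT1
      rw [Real.dist_eq, sub_zero] at hT
      have hT' := (le_abs_self _).trans hT.le
      have hc := re_cont hRH hT1
      have h2 : ∫ α in b..c, (F α T).re ≤ ∫ α in b..c, (min α 1 + max ((F α T).re - min α 1) 0) := by
        refine intervalIntegral.integral_mono_on hbc.le (hc.intervalIntegrable _ _) ?_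
          fun α _ => ?_
        · exact (by fun_prop : Continuous fun α => min α 1 +
            max ((F α T).re - min α 1) 0).intervalIntegrable _ _
        · have := le_max_left ((F α T).re - min α 1) 0
          linarith
      rw [intervalIntegral.integral_add
        ((by fun_prop : Continuous fun α : ℝ => min α 1).intervalIntegrable _ _)
        ((by fun_prop : Continuous fun α => max ((F α T).re - min α 1) 0).intervalIntegrable _ _)]
        at h2
      linarith
    have h2 := (half h1 b c hb hbc).sub_const (∫ α in b..c, min α 1)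
    rw [sub_self] at h2
    have h3 := ((h b c hb hbc).const_mul 2).sub h2
    rw [mul_zero, sub_zero] at h3
    refine h3.congr' ?_
    filter_upwards [hl1] with T hT
    have hc := re_cont hRH hT
    have i1 := (by fun_prop : Continuous fun α : ℝ => min α 1).intervalIntegrable
      (μ := volume) b c
    have i2 := (by fun_prop : Continuous fun α =>
      max ((F α T).re - min α 1) 0).intervalIntegrable (μ := volume) b c
    rw [← intervalIntegral.integral_const_mul, ← intervalIntegral.integral_sub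
      (hc.intervalIntegrable _ _) i1, ← intervalIntegral.integral_sub (i2.const_mul 2)
      ((hc.intervalIntegrable _ _).sub i1)]
    refine intervalIntegral.integral_congr fun α _ => ?_
    show 2 * max ((F α T).re - min α 1) 0 - ((F α T).re - min α 1) = |(F α T).re - min α 1|
    rcases le_total ((F α T).re - min α 1) 0 with h | h
    · rw [max_eq_right h, abs_of_nonpos h]
      ring
    · rw [max_eq_left h, abs_of_nonneg h]
      ring

end Pool.Agent.Results.MP_00e05b_nt.UpperHalf
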